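import Pool.Agent.H30.SnB

set_option autoImplicit false

namespace Pool.Agent.Results.MP_e04a0d_gt.NoFin

open Set Filter Topology Function TopologicalSpace Pool.Agent.H30.Sn

theorem result (X : Type) [τ₀ : TopologicalSpace X] [MetrizableSpace X] (hinf : ∀ n, ¬ DimLe X n) (k : ℕ)
    (τ : Fin (k + 1) → TopologicalSpace X) (hext : ∀ i U, IsOpen[τ₀] U → IsOpen[τ i] U)
    (h0 : ∀ i, @DimLe X (τ i) 0) : ∃ U, (∀ i, IsOpen[τ i] U) ∧ ¬ IsOpen[τ₀] U := by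
  classical
  letI : MetricSpace X := metrizableSpaceMetric X
  by_contra! h
  rcases isEmpty_or_nonempty X with e | e
  · exact hinf 0 fun 𝒰 _ _ _ => ⟨∅, finite_empty, by simp, Subsingleton.elim _ _, isEmptyElim⟩
  refine hinf ((k + 1 + 1) * ((k + 1 + 1) ^ (k + 1) + 1)) fun 𝒰 u1 u2 u3 => ?_
  haveI := u1.to_subtype
  obtain ⟨v, v1, v2, v3⟩ := exists_iUnion_eq_closure_subset (u := fun U : 𝒰 => U.1) (fun U => u2 _ U.2)
    (fun _ => toFinite _) (by rw [← sUnion_eq_iUnion, u3])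
  choose 𝒬 p1 p2 p3 p4 using fun i => h0 i (range v) (finite_range _) (forall_mem_range.2 fun U => hext i _ (v2 U))
    (by rw [sUnion_range, v1])
  choose P P1 P2 using fun i x => (p3 i).symm.subset (mem_univ x)
  have P3 : ∀ i x, ∀ V ∈ 𝒬 i, x ∈ V → V = P i x := fun i x V e1 e2 =>
    (ncard_le_one ((p1 i).subset fun _ h => h.1)).1 (p4 i x) V ⟨e1, e2⟩ _ ⟨P1 i x, P2 i x⟩
  haveI : Fintype (⋃ i, 𝒬 i) := (finite_iUnion p1).fintype
  have c : ∀ j : ⋃ i, 𝒬 i, ∃ U ∈ 𝒰, closure j.1 ⊆ U := fun ⟨V, hV⟩ => by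
    obtain ⟨i, hi⟩ := mem_iUnion.1 hV
    obtain ⟨_, ⟨U, rfl⟩, e⟩ := (p2 i V hi).2
    exact ⟨U, U.2, (closure_mono e).trans (v3 U)⟩
  choose U U1 U2 using c
  refine (star (fun j : ⋃ i, 𝒬 i => j.1) (k + 1) (fun x => ?_) (fun x => ?_) U
    (fun j => u2 _ (U1 j)) U2).elim fun 𝒱 ⟨w1, w2, w3, w4⟩ => ?_
  rotate_right
  · exact ⟨𝒱, w1, fun V hV => ⟨(w2 V hV).1, (w2 V hV).2.elim fun j hj => ⟨_, U1 j, hj⟩⟩, w3,
      fun x => (w4 x).trans (Nat.le_succ _)⟩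
  · refine (Finset.card_le_card (t := Finset.univ.image fun i => (⟨P i x, mem_iUnion.2 ⟨i, P1 i x⟩⟩ : ⋃ i, 𝒬 i))
      fun ⟨V, hV⟩ e1 => ?_).trans (Finset.card_image_le.trans (by simp))
    obtain ⟨i, hi⟩ := mem_iUnion.1 hV
    exact Finset.mem_image.2 ⟨i, Finset.mem_univ _, Subtype.ext (P3 i x V hi (Finset.mem_filter.1 e1).2).symm⟩
  · refine mem_of_superset (show (⋃ i, P i x) ∈ 𝓝 x from by_contra fun e1 => ?_) (iUnion_subset fun i =>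
      subset_iUnion₂_of_subset ⟨P i x, mem_iUnion.2 ⟨i, P1 i x⟩⟩ (Finset.mem_filter.2 ⟨Finset.mem_univ _, P2 i x⟩)
      Subset.rfl)
    obtain ⟨y, y1, y2⟩ := mem_closure_iff_seq_limit.1
      (show x ∈ closure (⋃ i, P i x)ᶜ by rwa [closure_compl, mem_compl_iff, mem_interior_iff_mem_nhds])
    have y3 : x ∉ range y := fun ⟨n, e2⟩ => y1 n (mem_iUnion.2 ⟨0, e2 ▸ P2 0 x⟩)
    have e2 : IsOpen (range y)ᶜ := h _ fun i => by
      have e3 : (range y)ᶜ = (insert x (range y))ᶜ ∪ P i x := Set.ext fun z => ⟨fun e3 => (em (z = x)).elim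
        (fun e4 => Or.inr (e4 ▸ P2 i x)) fun e4 => Or.inl fun e5 => e5.elim e4 e3, fun e3 => e3.elim
        (fun e4 e5 => e4 (Or.inr e5)) fun e4 ⟨n, e5⟩ => y1 n (mem_iUnion.2 ⟨i, e5 ▸ e4⟩)⟩
      rw [e3]
      exact @IsOpen.union X _ _ (τ i) (hext i _ y2.isCompact_insert_range.isClosed.isOpen_compl) (p2 i _ (P1 i x)).1
    obtain ⟨n, hn⟩ := (y2.eventually (e2.mem_nhds y3)).exists
    exact hn ⟨n, rfl⟩

end Pool.Agent.Results.MP_e04a0d_gt.NoFin
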